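import Pool.Agent.H.MP_a8bb4d_al.D

set_option autoImplicit false

namespace Pool.Agent.Results.MP_a8bb4d_al.Yes

open MvPolynomial Pool.Agent.H.MP_a8bb4d_al Pool.Agent.PdOne Pool.Agent.PdFun Pool.Agent.PdSym
  Pool.Agent.Dep

variable {r : ℕ} {K : Type} [Field K]

/-- The integral closure of an ideal: the elements `x` with `x^j + a₁ x^(j-1) + ⋯ + a_j = 0`,
`aᵢ ∈ 𝔞^i` (they form an ideal, so taking the span adds nothing). -/
noncomputable def intCl (𝔞 : Ideal (MvPolynomial (Fin r) K)) : Ideal (MvPolynomial (Fin r) K) :=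
  Ideal.span {x | ∃ (j : ℕ) (a : ℕ → MvPolynomial (Fin r) K), 1 ≤ j ∧
    (∀ i ∈ Finset.Icc 1 j, a i ∈ 𝔞 ^ i) ∧ x ^ j + ∑ i ∈ Finset.Icc 1 j, a i * x ^ (j - i) = 0}

/-- `depth R ⧸ J`: the supremum of the lengths of `R ⧸ J`-regular sequences in `(X₁, …, X_r)`. -/
noncomputable def depth (J : Ideal (MvPolynomial (Fin r) K)) : ℕ∞ :=
  ⨆ (rs : List (MvPolynomial (Fin r) K)) (_ : ∀ x ∈ rs, x ∈ Ideal.span (Set.range X))
    (_ : RingTheory.Sequence.IsRegular (MvPolynomial (Fin r) K ⧸ J) rs), (rs.length : ℕ∞)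

/-- The set whose least element is the stability index. -/
def stab (I : Ideal (MvPolynomial (Fin r) K)) : Set ℕ :=
  {s | 1 ≤ s ∧ ∀ n, s ≤ n → depth (intCl (I ^ n)) = depth (intCl (I ^ s))}

/-- Degrees of the minimal monomial generators. -/
def genDeg (I : Ideal (MvPolynomial (Fin r) K)) : Set ℕ :=
  {m | ∃ a : Fin r →₀ ℕ, Minimal (fun b => monomial b (1 : K) ∈ I) a ∧ ∑ i, a i = m}

theorem result (r : ℕ) (hr : 1 ≤ r) : ∃ C : ℕ, ∀ (K : Type) [Field K]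
    (I : Ideal (MvPolynomial (Fin r) K)),
    (∃ s : Set (Fin r →₀ ℕ), I = Ideal.span ((fun a => monomial a (1 : K)) '' s)) →
    I ≠ ⊥ → I ≠ ⊤ → ∀ d, IsGreatest (genDeg I) d →
      (stab I).Nonempty ∧ sInf (stab I) ≤ C * d ^ r := by
  classical
  refine ⟨(r + 1) * (r * (r + 1) ^ r), fun K _ I ⟨s, hs⟩ _ h1 d ⟨⟨v, h2, h3⟩, h4⟩ => ?_⟩
  let G := (Finset.Iic (Finsupp.equivFunOnFinite.symm fun _ : Fin r => d)).filter
    fun a => monomial a (1 : K) ∈ I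
  have g1 : ∀ a, a ∈ G ↔ (∀ i, a i ≤ d) ∧ monomial a (1 : K) ∈ I := fun a => by
    simp [G, Finsupp.le_def]
  have g2 : ∀ a, Minimal (fun b => monomial b (1 : K) ∈ I) a → a ∈ G := fun a ha =>
    (g1 a).2 ⟨fun i => (Finset.single_le_sum (fun _ _ => Nat.zero_le _)
      (Finset.mem_univ i)).trans (h4 ⟨a, ha, rfl⟩), ha.1⟩
  have g3 : 0 ∉ G := fun h => h1 ((Ideal.eq_top_iff_one _).2 ((g1 0).1 h).2)
  have hd : 1 ≤ d := Nat.pos_of_ne_zero fun h => g3 (by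
    rw [← show v = 0 from Finsupp.ext fun i => by simpa [h] using ((g1 v).1 (g2 v h2)).1 i]
    exact g2 v h2)
  have g4 := fun a ha => ((g1 a).1 ha).1
  have e : ∀ n, intCl (I ^ n) = MI K (Ex (HH G (((r + 1) * d) ^ r)) ee (pt 0 n)) := fun n => by
    refine le_antisymm (Ideal.span_le.2 ?_) (Ideal.span_le.2 ?_)
    · rintro f ⟨j, a, -, h5, h6⟩
      refine supp_mem hs (fun a ha => ?_) h5 h6
      obtain ⟨b, h7, h8⟩ := exists_minimal_le_of_wellFoundedLT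
        (fun b => monomial b (1 : K) ∈ I) a (hs ▸ Ideal.subset_span ⟨a, ha, rfl⟩)
      exact ⟨b, g2 b h8, h7⟩
    · rintro _ ⟨a, ha, rfl⟩
      obtain ⟨j, h5, h6⟩ := pow_mem hr hd (g2 v h2) g4 (fun a ha => ((g1 a).1 ha).2) ha
      refine Ideal.subset_span ⟨j, fun i => if i = j then -monomial a 1 ^ j else 0, h5,
        fun i _ => ?_, by simp [h5]⟩
      beta_reduce
      split_ifs with h
      · exact neg_mem (h.symm ▸ h6)
      · exact zero_mem _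
  obtain ⟨ε, hε⟩ := depth_Ex (k := K) hr hd (g2 v h2) g4 g3
  have hB : 1 ≤ ((r + 1) * d) ^ r := Nat.one_le_pow _ _ (by positivity)
  have h5 : 1 ≤ (r + 1) * (r * ((r + 1) * d) ^ r) := Nat.mul_pos (by omega) (Nat.mul_pos hr hB)
  have h6 : ∀ n, (r + 1) * (r * ((r + 1) * d) ^ r) ≤ n → depth (intCl (I ^ n)) = ε := fun n hn => by
    obtain ⟨⟨rs, h6, h7, h8⟩, h9⟩ := isGreatest_of_dp (MI_le (zero_notMem (by exact_mod_cast hB) g3
      (h5.trans hn))) max_ne (hε n).1 ((hε n).2 hn)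
    rw [e]
    exact le_antisymm (iSup_le fun rs => iSup₂_le fun h h' => Nat.cast_le.2 (h9 ⟨rs, rfl, h, h'⟩))
      (h6 ▸ le_iSup_of_le rs (le_iSup₂_of_le h7 h8 le_rfl))
  have h7 : (r + 1) * (r * ((r + 1) * d) ^ r) ∈ stab I :=
    ⟨h5, fun n hn => (h6 n hn).trans (h6 _ le_rfl).symm⟩
  exact ⟨⟨_, h7⟩, (Nat.sInf_le h7).trans_eq (by rw [mul_pow]; ring)⟩

end Pool.Agent.Results.MP_a8bb4d_al.Yes
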